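import Pool.Agent.H57.FsC

set_option autoImplicit false

namespace Pool.Agent.Results.MP_089608_lc.FailsFromTwo

open Cardinal Order

/-- The polarized relation with first column `l⁺, l⁺` and second column `l, η` on `l⁺ × l⁺`. -/
def Star (l η : Cardinal.{0}) : Prop :=
  ∀ Δ : Set ((succ l).ord.ToType × (succ l).ord.ToType),
    (∃ H₁ H₂ : Set (succ l).ord.ToType, #H₁ = succ l ∧ #H₂ = succ l ∧ H₁ ×ˢ H₂ ⊆ Δ) ∨
    (∃ H₁ H₂ : Set (succ l).ord.ToType, #H₁ = l ∧ #H₂ = η ∧ H₁ ×ˢ H₂ ⊆ Δᶜ)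

theorem result (gch : ∀ c : Cardinal.{0}, ℵ₀ ≤ c → 2 ^ c = succ c) (l : Cardinal.{0})
    (hl : l.IsSingular) (η : Cardinal.{0}) (hη : 2 ≤ η) : ¬ Star l η := fun h => by
  obtain ⟨I, _, ν, h1, h2, h3, h4⟩ := H57.Fs.levels hl
  obtain ⟨f, -, -, f1, f2⟩ := H57.Fs.main2
    (H82.LadA.reg_toType (isRegular_succ hl.aleph0_le)) gch h1 h2 h3 h4
  rcases h {p | p.1 ∉ f p.2} with ⟨X, Y, k1, k2, k3⟩ | ⟨X, Y, k1, k2, k3⟩
  · obtain ⟨x, hx, a, ha, k⟩ := f2 X Y ((lt_succ l).trans_eq k1.symm) ((lt_succ l).trans_eq k2.symm)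
    exact k3 (Set.mk_mem_prod hx ha) k
  · obtain ⟨a, b, n⟩ := two_le_iff.1 (hη.trans_eq k2.symm)
    exact (f1 a b fun e => n (Subtype.ext e)).not_ge (k1.ge.trans (mk_le_mk_of_subset fun x hx =>
      ⟨not_not.1 (k3 (Set.mk_mem_prod hx a.2)), not_not.1 (k3 (Set.mk_mem_prod hx b.2))⟩))

end Pool.Agent.Results.MP_089608_lc.FailsFromTwo
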